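import Mathlib
import Pool.Agent.L5helper9.Nf4
import Pool.Agent.L5helper5.NfLow.M1
import Pool.Agent.L5helper5.NfLow.M2

/-!
# How many small integers generate the same extension of a number field
-/

set_option autoImplicit false

namespace Pool.Agent.L5helper66.NfLow

open Module NumberField
open scoped Pointwise

section

variable (K : Type) [Field K] [NumberField K] (L : Type) [Field L] [NumberField L] [Algebra K L]

theorem greedyK [FiniteDimensional K L] (hprim : ∀ E : IntermediateField K L, E = ⊥ ∨ E = ⊤) (S : ℕ) (hS : 1 ≤ S)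
    (E : Set (𝓞 L))
    (hdim : S + 1 ≤ finrank K (Submodule.span K (insert (1 : L) ((fun x : 𝓞 L => (x : L)) '' E)))) :
    ∀ j ≤ finrank K L, ∃ w : Fin j → 𝓞 L, LinearIndependent K (fun i => (w i : L)) ∧
      ∀ i : Fin j, w i ∈ (insert (1 : 𝓞 L) E) ^ (((i : ℕ) + S - 1) / S) := by
  intro j
  induction j with
  | zero =>
    intro _
    exact ⟨Fin.elim0, linearIndependent_empty_type, fun i => i.elim0⟩
  | succ j ih =>
    intro hj
    obtain ⟨w, hw, hw2⟩ := ih (by omega)
    set k := (j + S - 1) / S with hk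
    have hkS : j ≤ k * S := by
      have h1 := Nat.div_add_mod (j + S - 1) S
      have h2 := Nat.mod_lt (j + S - 1) (by omega : 0 < S)
      rw [← hk, mul_comm] at h1
      omega
    have hset : insert (1 : L) ((fun x : 𝓞 L => (x : L)) '' E)
        = (algebraMap (𝓞 L) L) '' (insert (1 : 𝓞 L) E) := by
      rw [Set.image_insert_eq]
      simp
    have hspan : (Submodule.span K (insert (1 : L) ((fun x : 𝓞 L => (x : L)) '' E))) ^ k
        = Submodule.span K ((algebraMap (𝓞 L) L) '' ((insert (1 : 𝓞 L) E) ^ k)) := by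
      rw [Submodule.span_pow, hset, Set.image_pow]
    have hdimk := Pool.Agent.L5helper5.NfLow.pow_dim hprim _ S hS hdim k
    rw [hspan] at hdimk
    have hex : ∃ x ∈ (insert (1 : 𝓞 L) E) ^ k,
        (x : L) ∉ Submodule.span K (Set.range fun i => (w i : L)) := by
      by_contra hcon
      push Not at hcon
      have hle : Submodule.span K ((algebraMap (𝓞 L) L) '' ((insert (1 : 𝓞 L) E) ^ k))
          ≤ Submodule.span K (Set.range fun i => (w i : L)) := by
        rw [Submodule.span_le]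
        rintro _ ⟨x, hx, rfl⟩
        exact hcon x hx
      have h2 := Submodule.finrank_mono hle
      have h3 : finrank K (Submodule.span K (Set.range fun i => (w i : L))) ≤ j := by
        have := finrank_range_le_card (R := K) (fun i : Fin j => (w i : L))
        simpa [Set.finrank] using this
      omega
    obtain ⟨x, hx, hxn⟩ := hex
    refine ⟨Fin.snoc w x, ?_, ?_⟩
    · have h4 : (fun i => ((Fin.snoc w x : Fin (j + 1) → 𝓞 L) i : L))
          = Fin.snoc (fun i => (w i : L)) (x : L) := by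
        funext i
        refine Fin.lastCases ?_ (fun i => ?_) i
        · simp
        · simp
      rw [h4, linearIndependent_finSnoc]
      exact ⟨hw, hxn⟩
    · intro i
      refine Fin.lastCases ?_ (fun i => ?_) i
      · simpa using hx
      · simpa using hw2 i

theorem exists_house : ∃ C : ℝ, 1 ≤ C ∧ ∀ (i : Free.ChooseBasisIndex ℤ (𝓞 K)) (φ : K →+* ℂ),
    ‖φ ((RingOfIntegers.basis K i : 𝓞 K) : K)‖ ≤ C := by
  obtain ⟨C, hC⟩ := (Set.finite_range fun p : Free.ChooseBasisIndex ℤ (𝓞 K) × (K →+* ℂ) =>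
    ‖p.2 ((RingOfIntegers.basis K p.1 : 𝓞 K) : K)‖).bddAbove
  refine ⟨max C 1, le_max_right _ _, fun i φ => ?_⟩
  exact (hC ⟨(i, φ), rfl⟩).trans (le_max_left _ _)

theorem discrK [FiniteDimensional K L] (n : ℕ) (hn : finrank K L = n) (c0 : ℝ) (hc0 : 1 ≤ c0)
    (hω : ∀ (i : Free.ChooseBasisIndex ℤ (𝓞 K)) (φ : K →+* ℂ),
      ‖φ ((RingOfIntegers.basis K i : 𝓞 K) : K)‖ ≤ c0)
    (w : Fin n → 𝓞 L) (hw : LinearIndependent K (fun i => (w i : L))) (e : Fin n → ℕ) (B : ℝ) (hB : 1 ≤ B)
    (hwB : ∀ (j : Fin n) (φ : L →+* ℂ), ‖φ (w j : L)‖ ≤ B ^ e j) :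
    ((|NumberField.discr L| : ℤ) : ℝ) ≤
      (((finrank ℚ K * n).factorial : ℝ) * c0 ^ (finrank ℚ K * n)) ^ 2 *
        B ^ (2 * (finrank ℚ K * ∑ j, e j)) := by
  classical
  have hcK : Fintype.card (Free.ChooseBasisIndex ℤ (𝓞 K)) = finrank ℚ K := by
    rw [← Module.finrank_eq_card_chooseBasisIndex, RingOfIntegers.rank]
  have hN : finrank ℚ L = finrank ℚ K * n := by
    rw [← hn, Module.finrank_mul_finrank]
  have hcard : Fintype.card (Free.ChooseBasisIndex ℤ (𝓞 K) × Fin n) = finrank ℚ K * n := by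
    rw [Fintype.card_prod, hcK, Fintype.card_fin]
  set e0 : Free.ChooseBasisIndex ℤ (𝓞 K) × Fin n ≃ Fin (finrank ℚ K * n) := Fintype.equivFinOfCardEq hcard with he0
  set wB : Basis (Fin n) K L := basisOfLinearIndependentOfCardEqFinrank' (fun i => (w i : L)) hw
    (by rw [Fintype.card_fin, hn]) with hwBd
  set bb : Basis (Free.ChooseBasisIndex ℤ (𝓞 K) × Fin n) ℚ L := (integralBasis K).smulTower wB with hbb
  set b' : Fin (finrank ℚ K * n) → 𝓞 L := fun k =>
    algebraMap (𝓞 K) (𝓞 L) (RingOfIntegers.basis K (e0.symm k).1) * w (e0.symm k).2 with hb'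
  have hb'c : ∀ k, (b' k : L) =
      algebraMap K L ((RingOfIntegers.basis K (e0.symm k).1 : 𝓞 K) : K) * (w (e0.symm k).2 : L) := by
    intro k
    rw [hb']
    simp only [map_mul]
    congr 1
  have hbas : (fun k => (b' k : L)) = bb.reindex e0 := by
    funext k
    rw [hb'c, Basis.reindex_apply, hbb, Basis.smulTower_apply, integralBasis_apply, hwBd,
      coe_basisOfLinearIndependentOfCardEqFinrank', Algebra.smul_def]
  have hne : Algebra.discr ℚ (fun k => (b' k : L)) ≠ 0 := by
    rw [hbas]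
    exact Algebra.discr_not_zero_of_basis ℚ _
  obtain ⟨z, _, hz, hzle⟩ := L5helper9.Nf.discr_family L hN b' hne
  have hbd := L5helper9.Nf.discr_bound L hN (fun k => (b' k : L))
    (fun k => c0 * B ^ e (e0.symm k).2) (fun k φ => by
      rw [hb'c, map_mul, norm_mul]
      exact mul_le_mul (hω _ (φ.comp (algebraMap K L))) (hwB _ φ) (norm_nonneg _) (by positivity))
  rw [hz] at hbd
  have h2 : ((|NumberField.discr L| : ℤ) : ℝ) ≤ ((|z| : ℤ) : ℝ) := by exact_mod_cast hzle
  refine h2.trans ?_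
  have h3 : ((|z| : ℤ) : ℝ) = |(((z : ℤ) : ℚ) : ℝ)| := by push_cast; rfl
  rw [h3]
  refine hbd.trans (le_of_eq ?_)
  have h4 : ∏ k : Fin (finrank ℚ K * n), c0 * B ^ e (e0.symm k).2 =
      c0 ^ (finrank ℚ K * n) * B ^ (finrank ℚ K * ∑ j, e j) := by
    rw [Finset.prod_mul_distrib, Finset.prod_const, Finset.card_univ, Fintype.card_fin]
    congr 1
    rw [Finset.prod_pow_eq_pow_sum]
    congr 1
    rw [Equiv.sum_comp e0.symm (fun p => e p.2), Fintype.sum_prod_type]
    simp only [Finset.sum_const, Finset.card_univ, hcK, smul_eq_mul]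
  rw [h4, ← mul_assoc, mul_pow, ← pow_mul, mul_comm _ 2]

end

section

variable {K : Type} [Field K] [NumberField K]

lemma fibreK (L : IntermediateField K (AlgebraicClosure K)) [NumberField L]
    (A : Finset (AlgebraicClosure K)) (B : ℝ) (hB : 1 ≤ B)
    (hA : ∀ α ∈ A, ∃ x : 𝓞 L, ((x : L) : AlgebraicClosure K) = α ∧ ∀ φ : L →+* ℂ, ‖φ x‖ ≤ B)
    (V : Submodule ℚ L) (hV : ∀ x : 𝓞 L, (∀ φ : L →+* ℂ, ‖φ x‖ ≤ B) → (x : L) ∈ V)
    (s : ℕ) (hs : finrank ℚ V ≤ s) :
    (A.card : ℝ) ≤ (1 + 2 * B) ^ s := by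
  classical
  choose! g hg1 hg2 using hA
  have hinj : Set.InjOn (fun α => (g α : L)) A := by
    intro x hx y hy hxy
    rw [← hg1 x hx, ← hg1 y hy]
    exact congrArg (fun z : L => (z : AlgebraicClosure K)) hxy
  have h := Pool.Agent.L5helper5.NfLow.packing L V s hs B 1 one_pos hB
    (A.image fun α => (g α : L)) (by
      intro x hx
      rw [Finset.mem_image] at hx
      obtain ⟨α, hα, rfl⟩ := hx
      exact hV _ (hg2 α hα)) (by
      intro x hx
      rw [Finset.mem_image] at hx
      obtain ⟨α, hα, rfl⟩ := hx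
      exact hg2 α hα) (by
      intro x hx y hy hxy
      rw [Finset.mem_image] at hx hy
      obtain ⟨α, hα, rfl⟩ := hx
      obtain ⟨β, hβ, rfl⟩ := hy
      have h1 : g α - g β ≠ 0 := by
        intro h0
        apply hxy
        rw [sub_eq_zero] at h0
        rw [h0]
      obtain ⟨φ, hφ⟩ := NumberField.exists_conjugate_one_le_norm h1
      refine ⟨φ, ?_⟩
      simpa using hφ)
  rw [Finset.card_image_of_injOn hinj, div_one] at h
  exact h

lemma specK {n : ℕ} {B : ℝ} {α : AlgebraicClosure K}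
    (h : IsIntegral ℤ α ∧ finrank K (IntermediateField.adjoin K {α}) = n ∧
        (∀ φ : IntermediateField.adjoin K {α} →+* ℂ,
          ‖φ (IntermediateField.AdjoinSimple.gen K α)‖ ≤ B) ∧
        ∀ E : IntermediateField K (IntermediateField.adjoin K {α}), E = ⊥ ∨ E = ⊤)
    {L : IntermediateField K (AlgebraicClosure K)} (hL : IntermediateField.adjoin K {α} = L) :
    finrank K L = n ∧ (∀ E : IntermediateField K L, E = ⊥ ∨ E = ⊤) ∧
      ∃ x : 𝓞 L, ((x : L) : AlgebraicClosure K) = α ∧ ∀ φ : L →+* ℂ, ‖φ x‖ ≤ B := by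
  subst hL
  obtain ⟨h1, h2, h3, h4⟩ := h
  have hx : IsIntegral ℤ (IntermediateField.AdjoinSimple.gen K α) := by
    have : IsIntegral ℤ (algebraMap (IntermediateField.adjoin K {α}) (AlgebraicClosure K)
        (IntermediateField.AdjoinSimple.gen K α)) := by
      rw [IntermediateField.AdjoinSimple.algebraMap_gen]
      exact h1
    exact (isIntegral_algebraMap_iff
      (algebraMap (IntermediateField.adjoin K {α}) (AlgebraicClosure K)).injective).1 this
  exact ⟨h2, h4, ⟨_, hx⟩, rfl, h3⟩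

end

open scoped Classical in
theorem mult_boundK (K : Type) [Field K] [NumberField K] (n S : ℕ) (hn : 1 ≤ n) (hS : 1 ≤ S) :
    ∃ C : ℝ, 1 ≤ C ∧ ∀ B : ℝ, 1 ≤ B → ∀ A : Finset (AlgebraicClosure K),
      (∀ α ∈ A, IsIntegral ℤ α ∧ finrank K (IntermediateField.adjoin K {α}) = n ∧
        (∀ φ : IntermediateField.adjoin K {α} →+* ℂ,
          ‖φ (IntermediateField.AdjoinSimple.gen K α)‖ ≤ B) ∧
        ∀ E : IntermediateField K (IntermediateField.adjoin K {α}), E = ⊥ ∨ E = ⊤) →
      ∀ R : Finset (IntermediateField K (AlgebraicClosure K)),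
        (∀ L : IntermediateField K (AlgebraicClosure K), finrank K L = n →
          (∃ h : NumberField L, ((|@NumberField.discr L _ h| : ℤ) : ℝ) ≤
            C * B ^ (2 * (finrank ℚ K * ∑ j ∈ Finset.range n, (j + S - 1) / S))) → L ∈ R) →
        (A.card : ℝ) ≤ R.card * (1 + 2 * B) ^ (finrank ℚ K * n) +
          (A.image fun α => IntermediateField.adjoin K {α}).card *
            (1 + 2 * B) ^ (finrank ℚ K * S) := by
  obtain ⟨c0, hc0, hω⟩ := exists_house K
  refine ⟨(((finrank ℚ K * n).factorial : ℝ) * c0 ^ (finrank ℚ K * n)) ^ 2, ?_, ?_⟩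
  · have h1 : (1 : ℝ) ≤ ((finrank ℚ K * n).factorial : ℝ) := by
      exact_mod_cast Nat.one_le_iff_ne_zero.2 (Nat.factorial_ne_zero _)
    have h2 : (1 : ℝ) ≤ c0 ^ (finrank ℚ K * n) := one_le_pow₀ hc0
    exact one_le_pow₀ (one_le_mul_of_one_le_of_one_le h1 h2)
  intro B hB A hA R hR
  set T := A.image fun α => IntermediateField.adjoin K {α} with hT
  have hTmem : ∀ L ∈ T, finrank K L = n ∧ ∀ E : IntermediateField K L, E = ⊥ ∨ E = ⊤ := by
    intro L hL
    rw [hT, Finset.mem_image] at hL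
    obtain ⟨α, hα, hαL⟩ := hL
    exact ⟨(specK (hA α hα) hαL).1, (specK (hA α hα) hαL).2.1⟩
  set Af : IntermediateField K (AlgebraicClosure K) → Finset (AlgebraicClosure K) :=
    fun L => A.filter fun α => IntermediateField.adjoin K {α} = L with hAf
  have hcard : A.card = ∑ L ∈ T, (Af L).card :=
    Finset.card_eq_sum_card_image _ _
  set g1 := (1 + 2 * B) ^ (finrank ℚ K * n) with hg1
  set g3 := (1 + 2 * B) ^ (finrank ℚ K * S) with hg3
  have hg1' : 0 ≤ g1 := by positivity
  have hg3' : 0 ≤ g3 := by positivity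
  have hAfs : ∀ L, ∀ α ∈ Af L, ∃ x : 𝓞 L, ((x : L) : AlgebraicClosure K) = α ∧
      ∀ φ : L →+* ℂ, ‖φ x‖ ≤ B := by
    intro L α hα
    rw [hAf, Finset.mem_filter] at hα
    exact (specK (hA α hα.1) hα.2).2.2
  have hmain : ∀ L ∈ T, ((Af L).card : ℝ) ≤ (if L ∈ R then g1 else 0) + g3 := by
    intro L hL
    obtain ⟨hLn, hLprim⟩ := hTmem L hL
    have hfin : FiniteDimensional K L := FiniteDimensional.of_finrank_pos (by omega)
    have hNF : NumberField L := NumberField.of_module_finite K L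
    by_cases h1 : L ∈ R
    · rw [if_pos h1]
      have h2 := fibreK L (Af L) B hB (hAfs L) ⊤ (fun _ _ => Submodule.mem_top)
        (finrank ℚ K * n) (by rw [finrank_top, ← hLn, Module.finrank_mul_finrank])
      linarith
    · rw [if_neg h1]
      set E : Set (𝓞 L) := {x | ∀ φ : L →+* ℂ, ‖φ x‖ ≤ B} with hE
      set W : Submodule K L := Submodule.span K (insert (1 : L) ((fun x : 𝓞 L => (x : L)) '' E)) with hW
      have hdim : finrank K W ≤ S := by
        by_contra hcon
        apply h1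
        obtain ⟨w, hw, hw2⟩ := greedyK K L hLprim S hS E (Nat.succ_le_of_lt (not_le.1 hcon)) n
          (by omega)
        have h2 := discrK K L n hLn c0 hc0 hω w hw (fun j => ((j : ℕ) + S - 1) / S) B hB
          (fun j φ => Pool.Agent.L5helper5.NfLow.norm_prod_le L B hB E (fun x hx => hx) _ (w j)
            (hw2 j) φ)
        rw [Fin.sum_univ_eq_sum_range (fun j => (j + S - 1) / S) n] at h2
        exact hR L hLn ⟨hNF, h2⟩
      have h2 := fibreK L (Af L) B hB (hAfs L) (W.restrictScalars ℚ) (by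
          intro x hx
          rw [Submodule.restrictScalars_mem]
          apply Submodule.subset_span
          exact Set.mem_insert_of_mem _ ⟨x, hx, rfl⟩) (finrank ℚ K * S) (by
          have h3 : finrank ℚ (W.restrictScalars ℚ) = finrank ℚ W :=
            ((Submodule.restrictScalarsEquiv ℚ K L W).restrictScalars ℚ).finrank_eq
          rw [h3, ← Module.finrank_mul_finrank ℚ K W]
          exact Nat.mul_le_mul_left _ hdim)
      linarith
  have hrich : ((T.filter fun L => L ∈ R).card : ℝ) ≤ R.card := by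
    have : (T.filter fun L => L ∈ R) ⊆ R := fun L hL => (Finset.mem_filter.1 hL).2
    exact_mod_cast Finset.card_le_card this
  calc (A.card : ℝ) = ∑ L ∈ T, ((Af L).card : ℝ) := by rw [hcard]; push_cast; rfl
    _ ≤ ∑ L ∈ T, ((if L ∈ R then g1 else 0) + g3) := Finset.sum_le_sum hmain
    _ = (T.filter fun L => L ∈ R).card * g1 + T.card * g3 := by
      rw [Finset.sum_add_distrib, ← Finset.sum_filter, Finset.sum_const, Finset.sum_const]
      simp only [nsmul_eq_mul]
    _ ≤ _ := by
      gcongr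

end Pool.Agent.L5helper66.NfLow
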